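import Mathlib

namespace Pool.Agent.Results.MP_4bcb19_an.OneCritical

open Polynomial

/-- Signed curvature of the graph of `p`. -/
noncomputable def kappa (p : ℝ[X]) (x : ℝ) : ℝ :=
  (derivative (derivative p)).eval x / (1 + ((derivative p).eval x) ^ 2) ^ (3 / 2 : ℝ)

theorem result : ∃ p : ℝ[X], p.natDegree = 4 ∧ {x | deriv (kappa p) x = 0} ⊆ {0} := by
  have hk : kappa (X ^ 4 + C 2 * X ^ 2) =
      fun x => (12 * x ^ 2 + 4) / (1 + (4 * x ^ 3 + 4 * x) ^ 2) ^ (3 / 2 : ℝ) := by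
    ext x
    simp only [kappa, derivative_add, derivative_X_pow, derivative_C_mul, eval_add, eval_mul,
      eval_C, eval_pow, eval_X]
    norm_num
    congr 1
    · ring
    · congr 1; ring
  have key : {x | deriv (kappa (X ^ 4 + C 2 * X ^ 2)) x = 0} ⊆ {0} := by
    intro x hx
    rw [Set.mem_ofPred_eq, hk] at hx
    set u : ℝ := 1 + (4 * x ^ 3 + 4 * x) ^ 2 with hu
    have hu0 : 0 < u := by positivity
    have h1 : HasDerivAt (fun x : ℝ => 12 * x ^ 2 + 4) (24 * x) x := by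
      have := ((hasDerivAt_pow 2 x).const_mul 12).add_const 4
      refine this.congr_deriv (by norm_num; ring)
    have h2 : HasDerivAt (fun x : ℝ => 1 + (4 * x ^ 3 + 4 * x) ^ 2)
        (2 * (4 * x ^ 3 + 4 * x) * (12 * x ^ 2 + 4)) x := by
      have := ((((hasDerivAt_pow 3 x).const_mul 4).add ((hasDerivAt_id x).const_mul 4)).pow
        2).const_add 1
      refine this.congr_deriv (by simp; ring_nf; simp)
    have h3 := h1.div (h2.rpow_const (p := 3 / 2) (Or.inl hu0.ne')) (Real.rpow_pos_of_pos hu0 _).ne'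
    have h4 := h3.deriv.symm.trans hx
    rw [div_eq_zero_iff] at h4
    have h5 : u ^ (3 / 2 : ℝ) = u * u ^ (3 / 2 - 1 : ℝ) := by
      rw [← Real.rpow_one_add' hu0.le (by norm_num)]; norm_num
    have h6 : 0 < u ^ (3 / 2 - 1 : ℝ) := Real.rpow_pos_of_pos hu0 _
    rcases h4 with h4 | h4
    · rw [← hu, h5] at h4
      have h7 : u ^ (3 / 2 - 1 : ℝ) * (x * (24 * u - 12 * (x ^ 2 + 1) * (12 * x ^ 2 + 4) ^ 2)) = 0 := by
        rw [← h4]; ring
      have h8 : 24 * u - 12 * (x ^ 2 + 1) * (12 * x ^ 2 + 4) ^ 2 < 0 := by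
        rw [hu]; nlinarith [sq_nonneg x, sq_nonneg (x ^ 2), sq_nonneg (x ^ 3)]
      rcases mul_eq_zero.1 h7 with h | h
      · exact absurd h h6.ne'
      · exact (mul_eq_zero.1 h).resolve_right h8.ne
    · exact absurd h4 (pow_pos (Real.rpow_pos_of_pos hu0 _) 2).ne'
  exact ⟨X ^ 4 + C 2 * X ^ 2, by compute_degree!, key⟩

end Pool.Agent.Results.MP_4bcb19_an.OneCritical
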